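import Mathlib
import Pool.Agent.Lib.MP_f8a8cb_gt.Dense

set_option autoImplicit false

namespace Pool.Agent.Results.MP_f8a8cb_gt.Main

universe u v

/-- Every continuous real function on `X` is bounded. -/
def IsPseudocompact (X : Type u) [TopologicalSpace X] : Prop :=
  ∀ f : X → ℝ, Continuous f → ∃ M : ℝ, ∀ x, |f x| ≤ M

/-- `X` has a Hausdorff compactification `e : X → K` whose image meets every nonempty `Gδ` subset
of `K`. -/
def IsWeaklyPseudocompact (X : Type u) [TopologicalSpace X] : Prop :=
  ∃ (K : Type v) (_ : TopologicalSpace K) (e : X → K),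
    CompactSpace K ∧ T2Space K ∧ IsDenseEmbedding e ∧
      ∀ S : Set K, IsGδ S → S.Nonempty → ∃ x, e x ∈ S

open Pool.Agent.Lib.MP_f8a8cb_gt Topology

/-- If some open neighbourhood of the identity in a subgroup `G` of a locally compact group has
weakly pseudocompact closure in `G`, then some open neighbourhood of the identity in `G` has
pseudocompact closure in `G`. -/
theorem result (H : Type u) [Group H] [TopologicalSpace H] [IsTopologicalGroup H] [T2Space H]
    [LocallyCompactSpace H] (G : Subgroup H) (U : Set G) (hU : IsOpen U) (h1 : (1 : G) ∈ U)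
    (hw : IsWeaklyPseudocompact.{u, v} (closure U)) :
    ∃ V : Set G, IsOpen V ∧ (1 : G) ∈ V ∧ IsPseudocompact (closure V) := by
  obtain ⟨K, _, e, _, _, he, hδ⟩ := hw
  obtain ⟨W, hW, rfl⟩ := isOpen_induced_iff.1 hU
  let ι : closure (((↑) : G → H) ⁻¹' W) → H := fun x => (x.1 : H)
  have hι : IsInducing ι := IsInducing.subtypeVal.comp IsInducing.subtypeVal
  have hd := fun h hh => gdelta_dense (G := G) (h := h) hι (fun x => x.1.2) he.isInducing hδ hW h1
    (fun g hg hG => ⟨⟨⟨g, hG⟩, subset_closure hg⟩, rfl⟩) hh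
  obtain ⟨C, hC, hC1⟩ := exists_compact_mem_nhds (1 : H)
  refine ⟨((↑) : G → H) ⁻¹' interior C, isOpen_interior.preimage continuous_subtype_val,
    mem_interior_iff_mem_nhds.2 hC1, fun f hf => ?_⟩
  exact bounded_of_gdelta_dense hd isOpen_interior hC interior_subset f hf

end Pool.Agent.Results.MP_f8a8cb_gt.Main
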